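import Pool.Agent.Lib.MP_72c364_ag.ZQ.Bc
import Pool.Agent.Lib.MP_751085_ag.ZF.NF.Bra
import Pool.Agent.Lib.MP_751085_ag.ZF.U.Cyc

/-! The statements at a prime `l` in terms of the working versions. -/

namespace Pool.Agent.ZCy.F

open scoped Classical

attribute [local instance] Place.field Place.alg bsGroup bsMonoid bsAddZero bsZero bsSMul

variable {k : Type} [Field k] {X : Var k}

/-- the pairing of a cycle on `X_K` with a class on the base change `X'` -/
noncomputable def prB {K : Type} [Field K] [Algebra k K] (X' : Gen K X.N) (z : X.Cyc K)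
    (a : BR X'.F) : BR K := z.sum fun x n => n • X'.var.ptv a (Var.res x) x.1

variable (X) (l : ℕ) (j : ∀ v : Place k, BR v.K →+ AddCircle (1 : ℚ))

/-- working version of `Var.Orth` -/
def OrthW (z : ∀ v : Place k, X.Cyc v.K) : Prop :=
  ∀ a ∈ X.Bw, Prim l a → ∑ᶠ v, j v (Var.pr (z v) a) = 0

/-- working version of `Var.El` -/
def ElW : Prop :=
  ∀ z : ∀ v : Place k, X.Cyc v.K, OrthW X l j z → ∀ r : ℕ, ∃ z₀ : X.Cyc k, ∀ v : Place k,
    ∃ z' : X.Cyc v.K, Var.IsExt z₀ z' ∧ ∀ X' : Gen v.K X.N, X.IsBC X' → ∀ a ∈ X'.var.Bw,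
      l ^ r • a = 0 → prB X' z' a = prB X' (z v) a

/-- working version of `Var.Pl` -/
def PlW : Prop :=
  (∃ z : ∀ v : Place k, X.Cyc v.K, (∀ v, ¬(l : ℤ) ∣ Var.deg (z v)) ∧ OrthW X l j z) →
    ∃ z : X.Cyc k, ¬(l : ℤ) ∣ Var.deg z

variable {X l j}

section

variable {K : Type} [Field K] [Algebra k K] {X' : Gen K X.N} {a : BR X'.F}

theorem prB_add (z z' : X.Cyc K) (a : BR X'.F) : prB X' (z + z') a = prB X' z a + prB X' z' a :=
  Finsupp.sum_add_index' (fun x => zero_zsmul (X'.var.ptv a (Var.res x) x.1)) fun x m m' =>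
    add_zsmul (X'.var.ptv a (Var.res x) x.1) m m'

theorem prB_single (x : X.Pt (AlgebraicClosure K)) (m : ℤ) (a : BR X'.F) :
    prB X' (Finsupp.single x m) a = m • X'.var.ptv a (Var.res x) x.1 :=
  Finsupp.sum_single_index (zero_zsmul (X'.var.ptv a (Var.res x) x.1))

theorem pairB_frW (h : X.IsBC X') (E : EvApi X'.var) (ha : a ∈ X'.var.Bw) (z : X.Cyc K) :
    Var.pairB X' z (frW _ _ a) = frW K _ (prB X' z a) := by
  induction z using Finsupp.induction_linear with
  | zero => exact ((frW K _).map_zero).symm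
  | add p q hp hq =>
    exact (Finsupp.sum_add_index' (fun _ => zero_zsmul _) fun x m m' => add_zsmul _ m m').trans
      ((congrArg₂ (· + ·) hp hq).trans (((frW K _).map_add _ _).symm.trans
        (congrArg _ (prB_add p q a).symm)))
  | single x m =>
    have hx : X'.var.On (Var.crd x) := (bc_on h).2 (Var.crd_on x)
    obtain ⟨a', b, h1, h2, h3⟩ := (val_iff (Ω := AlgebraicClosure K) hx _ _).1
      (Classical.epsilon_spec ⟨_, (val_iff (Ω := AlgebraicClosure K) hx _ _).2
        ⟨a, _, (E.vw a ha _ _ hx _).2 rfl, rfl, rfl⟩⟩)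
    obtain rfl := (frW_bij X'.F _).1 h2
    obtain rfl := (E.vw a ha _ _ hx _).1 h1
    exact (Finsupp.sum_single_index (zero_zsmul _)).trans ((congrArg (HSMul.hSMul m)
      ((congrArg _ h3).trans (coresS_frW _ _))).trans ((frW_zsmul m _).symm.trans
        (congrArg _ ((prB_single x m a).trans (congrArg (m • ·) (dif_pos _))).symm)))

end

theorem frW_pow {K : Type} [Field K] (r : ℕ) (a : BR K) :
    (l : ℤ) ^ r • frW K (AlgebraicClosure K) a = 0 ↔ l ^ r • a = 0 := by
  rw [← frW_zsmul, ← Nat.cast_pow, natCast_zsmul]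
  exact ⟨fun h => (frW_bij K _).1 (h.trans (frW K _).map_zero.symm),
    fun h => (congrArg _ h).trans (frW K _).map_zero⟩

theorem orth_iff (E : EvApi X) (j : Invs k) (z : ∀ v : Place k, X.Cyc v.K) :
    Var.Orth l j z ↔ OrthW X l (fun v => (j.fin v).comp (frW _ _)) z := by
  constructor
  · intro h a ha hp
    exact (finsum_congr fun v => congrArg (j.fin v) (pairS_frW E ha (z v)).symm).trans
      (h _ ((mem_BrX E _).2 ⟨a, ha, rfl⟩) (hp.imp fun r hr => (frW_pow r a).2 hr))
  · intro h α hα hp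
    obtain ⟨a, ha, rfl⟩ := (mem_BrX E _).1 hα
    exact (finsum_congr fun v => congrArg (j.fin v) (pairS_frW E ha (z v))).trans
      (h a ha (hp.imp fun r hr => (frW_pow r a).1 hr))

theorem pl_iff (E : EvApi X) (j : Invs k) :
    X.Pl l j ↔ PlW X l fun v => (j.fin v).comp (frW _ _) :=
  imp_congr_left (exists_congr fun z => and_congr_right fun _ => orth_iff E j z)

theorem el_iff (hE : EV) [Infinite k] {n : ℕ} (hX : X.Nice n) (hn : 1 ≤ n) (j : Invs k) :
    X.El l j ↔ ElW X l fun v => (j.fin v).comp (frW _ _) := by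
  refine forall_congr' fun z => imp_congr (orth_iff (hE k X n hX hn) j z) (forall_congr' fun r =>
    exists_congr fun z₀ => forall_congr' fun v => exists_congr fun z' => and_congr_right fun _ =>
      forall_congr' fun X' => forall_congr' fun h => ?_)
  have : Infinite v.K := Infinite.of_injective _ (algebraMap k v.K).injective
  have E := hE v.K X'.var n (bc_nice hX hn h) hn
  constructor
  · intro H a ha hr
    exact (frW_bij v.K (AlgebraicClosure v.K)).1 ((pairB_frW h E ha z').symm.trans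
      ((H _ ((mem_BrX E _).2 ⟨a, ha, rfl⟩) ((frW_pow r a).2 hr)).trans (pairB_frW h E ha _)))
  · intro H α hα hr
    obtain ⟨a, ha, rfl⟩ := (mem_BrX E _).1 hα
    exact (pairB_frW h E ha z').trans ((congrArg _ (H a ha ((frW_pow r a).1 hr))).trans
      (pairB_frW h E ha _).symm)

theorem frW_inj (j : Invs k) (v : Place k) :
    Function.Injective ((j.fin v).comp (frW v.K (AlgebraicClosure v.K))) :=
  (j.fin_inj v).comp (frW_bij _ _).1

end Pool.Agent.ZCy.F
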