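import Pool.Agent.Lib.MP_72c364_ag.ZQ.Step
import Pool.Agent.Lib.MP_72c364_ag.ZQ.Brg

/-! The reduction to threefolds. -/

namespace Pool.Agent.ZCy.F

open Pool.Agent.ZFN Pool.Agent.ZFy.U Uw Module
open scoped Classical

attribute [local instance] Place.field Place.alg

variable {k : Type} [Field k] {X : Var k} {l n : ℕ}
  {j : ∀ v : Place k, BR v.K →+ AddCircle (1 : ℚ)}

theorem prB_raw {K : Type} [Field K] [Algebra k K] (X' : Gen K X.N) (z : X.Cyc K) (a : BR X'.F) :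
    prB X' z a = rpr X'.var (raw X z) a := (sum_raw z fun x => X'.var.ptv a (rsF x) x).symm

theorem q_orth [Infinite k] (hE : EV) (hX : X.Nice n) (hn : 1 ≤ n) {Y : Gen k X.N}
    (hY : X.I ⊆ Y.var.I) (hL : ∀ a ∈ Y.var.Bw, Prim l a → ∃ b, X.Mt Y a b ∧ Prim l b)
    {z : ∀ v : Place k, X.Cyc v.K} {y : ∀ v : Place k, Y.var.Cyc v.K} (h : ∀ v, Rep l (y v) (z v))
    (hz : OrthW X l j z) : OrthW Y.var l j y := fun a ha hp => by
  obtain ⟨b, h1, r, hr⟩ := hL a ha hp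
  refine (finsum_congr fun v => congrArg (j v) ?_).trans (hz b h1.2.1 ⟨r, hr⟩)
  have : Infinite v.K := .of_injective _ (algebraMap k v.K).injective
  obtain ⟨X', hX', hb⟩ := bc_exists hX hn v.K
  obtain ⟨b', h2, h3, h4⟩ := res_rpr (hE k X n hX hn) (hE _ _ n hX' hn) (bc_sub hb) h1.2.1
  have h5 : ∀ x ∈ (raw Y.var (y v)).support, Y.var.On x := fun x hx => raw_on (y v) hx
  rw [pr_raw, pr_raw, rpr_congr (X := X) (Y := Y) (fun L w hw => h1.2.2 L w hw) h5,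
    ← h4 _ fun x hx => (bc_on hb).2 ⟨(h5 x hx).1, fun G hG => (h5 x hx).2 G (hY hG)⟩,
    ← h4 _ fun x hx => (bc_on hb).2 (raw_on (z v) hx)]
  exact (h v).2 X' hb b' h2 ⟨r, h3 _ hr⟩

variable (H : QHyp) (F₀ : Type) [Field F₀] [Finite F₀] [Algebra (RatFunc F₀) k]
  [FiniteDimensional (RatFunc F₀) k] (hl : l.Prime) (hk : (l : k) ≠ 0)
  (hj : ∀ v, Function.Injective (j v))

include H F₀ hl hk hj

theorem el_step (hn : 4 ≤ n) (hX : X.Nice n)
    (h : ∀ Y : Gen k X.N, X.I ⊆ Y.var.I → Y.var.Nice (n - 1) → ElW Y.var l j) : ElW X l j := by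
  intro z hz r
  have : Infinite k :=
    .of_injective _ ((algebraMap (RatFunc F₀) k).injective.comp (RatFunc.algebraMap_injective F₀))
  obtain ⟨Y, hY, hs, hL, hy⟩ := q_step H F₀ hl hk hj hn hX z
  choose y hy using hy
  obtain ⟨w, hw⟩ := h Y hs hY y (q_orth H.ev hX (by omega) hs hL hy hz) r
  obtain ⟨z₀, h0⟩ := exists_mv (X := X) (Z := Y) (K := k)
    (fun x hx => ⟨hx.1, fun G hG => hx.2 G (hs hG)⟩) w
  refine ⟨z₀, fun v => ?_⟩
  have : Infinite v.K := .of_injective _ (algebraMap k v.K).injective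
  obtain ⟨w', h1, h2⟩ := hw v
  obtain ⟨z', h3⟩ := exists_mv (X := X) (Z := Y) (K := v.K)
    (fun x hx => ⟨hx.1, fun G hG => hx.2 G (hs hG)⟩) w'
  refine ⟨z', fun x => ((mult_raw h3 _ x).trans (h1 x)).trans (mult_raw h0 _ x).symm,
    fun X' hb a ha hr => ?_⟩
  obtain ⟨Y', hY', hb'⟩ := bc_exists hY (by omega) v.K
  have e := bc_le hb hb' hs
  obtain ⟨b, h4, h5, h6⟩ := res_rpr (X := X'.var) (Y := Y')
    (H.ev _ _ n (bc_nice hX (by omega) hb) (by omega)) (H.ev _ _ _ hY' (by omega))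
    (X'.var.IK_self.le.trans e) ha
  have h7 := h2 Y' hb' b h4 (h5 _ hr)
  rw [prB_raw, prB_raw, h6 _ fun x hx => (bc_on (X := Y.var) hb').2 (raw_on w' hx),
    h6 _ fun x hx => (bc_on (X := Y.var) hb').2 (raw_on (y v) hx)] at h7
  rw [prB_raw, prB_raw, h3, h7]
  exact (hy v).2 X' hb a ha ⟨r, hr⟩

theorem pl_step (hn : 4 ≤ n) (hX : X.Nice n)
    (h : ∀ Y : Gen k X.N, X.I ⊆ Y.var.I → Y.var.Nice (n - 1) → PlW Y.var l j) : PlW X l j := by
  rintro ⟨z, hd, hz⟩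
  have : Infinite k :=
    .of_injective _ ((algebraMap (RatFunc F₀) k).injective.comp (RatFunc.algebraMap_injective F₀))
  obtain ⟨Y, hY, hs, hL, hy⟩ := q_step H F₀ hl hk hj hn hX z
  choose y hy using hy
  obtain ⟨w, hw⟩ := h Y hs hY ⟨y, fun v => by rw [(hy v).1]; exact hd v,
    q_orth H.ev hX (by omega) hs hL hy hz⟩
  obtain ⟨z₀, h0⟩ := exists_mv (X := X) (Z := Y) (K := k)
    (fun x hx => ⟨hx.1, fun G hG => hx.2 G (hs hG)⟩) w
  exact ⟨z₀, by rw [deg_raw h0]; exact hw⟩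

omit H F₀ hl hk hj in
theorem q_ind {P : Var k → Prop} (hP : ∀ (X : Var k) (n : ℕ), 4 ≤ n → X.Nice n →
      (∀ Y : Gen k X.N, X.I ⊆ Y.var.I → Y.var.Nice (n - 1) → P Y.var) → P X) (hn : 4 ≤ n)
    (hX : X.Nice n) (h : ∀ Y : Gen k X.N, X.I ⊆ Y.var.I → Y.var.Nice 3 → P Y.var) : P X := by
  induction n, hn using Nat.le_induction generalizing X with
  | base => exact hP X 4 le_rfl hX h
  | succ n hn ih =>
    exact hP X _ (by omega) hX fun Y hs hY => ih hY fun Z hs' hZ => h Z (hs.trans hs') hZ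

omit hj

theorem el_main (j : Invs k) (hn : 4 ≤ n) (hX : X.Nice n)
    (h : ∀ Y : Gen k X.N, X.I ⊆ Y.var.I → Y.var.Nice 3 → Y.var.El l j) : X.El l j := by
  have : Infinite k :=
    .of_injective _ ((algebraMap (RatFunc F₀) k).injective.comp (RatFunc.algebraMap_injective F₀))
  exact (el_iff H.ev hX (by omega) j).2 (q_ind (P := fun X => ElW X l _)
    (fun X n hn hX => el_step H F₀ hl hk (frW_inj j) hn hX) hn hX
    fun Y hs hY => (el_iff H.ev hY (by omega) j).1 (h Y hs hY))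

theorem pl_main (j : Invs k) (hn : 4 ≤ n) (hX : X.Nice n)
    (h : ∀ Y : Gen k X.N, X.I ⊆ Y.var.I → Y.var.Nice 3 → Y.var.Pl l j) : X.Pl l j := by
  have : Infinite k :=
    .of_injective _ ((algebraMap (RatFunc F₀) k).injective.comp (RatFunc.algebraMap_injective F₀))
  exact (pl_iff (H.ev k X n hX (by omega)) j).2 (q_ind (P := fun X => PlW X l _)
    (fun X n hn hX => pl_step H F₀ hl hk (frW_inj j) hn hX) hn hX
    fun Y hs hY => (pl_iff (H.ev k _ 3 hY (by omega)) j).1 (h Y hs hY))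

end Pool.Agent.ZCy.F
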