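import Pool.Agent.Lib.MP_72c364_ag.ZQ.Main
import Pool.Agent.Lib.MP_751085_ag.ZF.E.S5
import Pool.Agent.Lib.MP_751085_ag.ZF.E.X2
import Pool.Agent.Lib.MP_751085_ag.ZF.G.ExpB
import Pool.Agent.Lib.MP_751085_ag.ZF.G.ExpC
import Pool.Agent.Lib.MP_751085_ag.ZF.G.ExpR
import Pool.Agent.Lib.MP_751085_ag.ZF.K.K0x
import Pool.Agent.Lib.MP_751085_ag.ZF.K.K9
import Pool.Agent.Lib.MP_751085_ag.ZF.K.Wrap
import Pool.Agent.Lib.MP_751085_ag.ZF.L.Lef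
import Pool.Agent.Lib.MP_751085_ag.ZF.U.Div
import Pool.Agent.Lib.MP_751085_ag.ZF.W.Wr
import Pool.Agent.Lib.MP_751085_ag.ZF.Z.Thm

/-! The blocks put together. -/

namespace Pool.Agent.ZCy.F

open Pool.Agent.ZFy

theorem q_div : DIVp := fun _ _ _ _ hi _ hD h0 _ hM => U.div_Dv hi hM hD h0

theorem q_hyp : QHyp where
  cm := cMainS_of irrp
  ll := lefl_of (Kp.thmKp_of q_div) (Kp.k0ex_of finW) (Kp.thmK9_of q_div rgd) thmZL resh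
    chfp_thm n1p_thm (fun _ _ _ _ _ _ c _ => goodM c) ev_thm
  th := ⟨chfp_thm, ev_thm, Kp.thmKTp_of q_div, fun _ _ _ _ _ _ c _ => goodM c, conn_thm, irro_thm⟩
  ev := ev_thm
  wr := wr
  lc := lca_thm

end Pool.Agent.ZCy.F
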