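import Pool.Agent.Lib.MP_751085_ag.ZF.U.Main

/-! A cycle moves to every curve that passes near finitely many points, with the same pairing
against all primary classes. -/

namespace Pool.Agent.ZFy.U

open Module Pool.Agent.ZeroCyc Filter
open scoped Classical

variable {k K Λ : Type} [Field k] [Field K] [NormedField Λ] [IsAlgClosed Λ] [Algebra k K]
  [Algebra k Λ] [Algebra K Λ] [IsScalarTower k K Λ] [Normal K Λ] [LocF K Λ] {N : ℕ}
  {J : Ideal (MvPolynomial (Fin (N + 1)) K)} {ι : Type}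

/-- limits of multiples of classes of degree zero -/
theorem Crv.real_d (hJ : Crv k Λ J) {y : VV Λ J} (hy : y ∈ Atot Λ J)
    (U : Ultrafilter ι) {z : ι → VV Λ J} (hz : ∀ i, z i ∈ Azero Λ J) :
    ∃ z₀ ∈ Azero Λ J, ∀ (B : Type) [AddCommGroup B] (φ : VV Λ J →+ B), LC φ →
      ∀ᶠ i in U, φ (y.2 • z i) = φ z₀ := by
  obtain ⟨c, hc⟩ := hJ.bdd
  have h0 : c ∈ EffM Λ J := zero_add c ▸ hc 0 (zero_mem _)
  obtain ⟨e, he⟩ := Int.eq_ofNat_of_zero_le (real_deg h0)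
  obtain ⟨T, _, L, v, m, hL, hs⟩ := exists_sum hy
  have h2 : ∑ j, m j * (finrank K (L j) : ℤ) = y.2 := by
    simp only [hs, Prod.snd_sum, Prod.smul_snd, pc_snd, smul_eq_mul]
  choose w hw hd hl using fun j => haveI := (hL j).1
    hJ.lim_eff (hL j).2 U (w := fun i => z i + c) (e := e) fun i =>
      ⟨hc _ (hz i), by rw [Prod.snd_add, (mem_azero.1 (hz i)).2, zero_add, he]⟩
  refine ⟨∑ j, m j • w j - y.2 • c, mem_azero.2 ⟨sub_mem (sum_mem fun j _ => zsmul_mem (hw j) _)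
    (zsmul_mem (eff_le_atot h0) _), ?_⟩, fun B _ φ hφ => ?_⟩
  · simp only [Prod.snd_sub, Prod.snd_sum, Prod.smul_snd, hd, smul_eq_mul, ← mul_assoc]
    rw [← Finset.sum_mul, h2, he, sub_self]
  · filter_upwards [eventually_all.2 fun j => hl j B φ hφ] with i hi
    simp only [map_sub, map_sum, map_zsmul, ← hi, ← natCast_zsmul, ← mul_zsmul]
    rw [← Finset.sum_smul, h2, map_add, smul_add, add_sub_cancel_right]

end Pool.Agent.ZFy.U

namespace Pool.Agent.ZCy.F.Uw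

open Pool.Agent.ZFN Pool.Agent.ZFy.U Module Filter Topology
open scoped Classical

variable {k : Type} [Field k] [Infinite k] {X : Var k} {n : ℕ} {K : Type} [Field K] [Algebra k K]
  {ν : AbsoluteValue (Cb K) ℝ}

theorem real_d (h1 : EV) (h2 : WR) (h3 : LCA) (hX : X.Nice n) (hn : 1 ≤ n) {C : Gen k X.N}
    (hC : C.var.Nice 1) (hs : X.Sub C) (hν : LocAbv K ν) (y : C.var.Cyc K) {ι : Type}
    (U : Ultrafilter ι) {z : ι → C.var.Cyc K} (hz : ∀ i, Var.deg (z i) = 0) :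
    ∃ z₀ : C.var.Cyc K, Var.deg z₀ = 0 ∧
      ∀ a ∈ X.Bw, ∀ᶠ i in U, X.prG (Var.deg y • z i) a = X.prG z₀ a := by
  have A := h1 k X n hX hn
  let := ν.toNormedField
  have := hν.2
  obtain ⟨w, hw, h⟩ := (crv_of hC K).real_d (cyc_mem y) U
    (z := fun i => cyc _ K (z i)) fun i => mem_azero.2 ⟨cyc_mem _, (cyc_snd _).trans (hz i)⟩
  obtain ⟨z₀, rfl⟩ := cyc_surj hw.1
  refine ⟨z₀, (cyc_snd z₀).symm.trans hw.2, fun a ha => ?_⟩
  obtain ⟨B, _, χ, φ, hχ, hp, hc⟩ := exists_rep K h2 A hs ha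
  refine (h B φ fun L v₀ hL hv => ?_).mono fun i e => hχ ((hc _).symm.trans (Eq.trans
    (by rw [map_zsmul (cyc _ K), cyc_snd]) (e.trans (hc _))))
  have h0 : v₀ ≠ 0 := fun e => hv.ne (by rw [e]; rfl)
  filter_upwards [lc_up (h3 k X A) ha hν hL (sub_on hs hv), eventually_ne_nhds h0] with v h4 h5 h6
  have h7 : PtL (C.var.JK K) L (ZFy.U.up v) :=
    ⟨fun e => h5 (funext fun i => Subtype.ext (congrFun e i)), h6, fun i => (v i).2⟩
  rw [hp L _ hL h7, hp L _ hL hv, h4 (sub_on hs h7)]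

theorem cover_fix (h1 : EV) (h2 : WR) (hX : X.Nice n) (hn : 1 ≤ n) (hν : LocAbv K ν) (z : X.Cyc K)
    {M : ℕ} (hM : (M : K) ≠ 0) : ∃ T : PFam X K, ∀ C : Gen k X.N, X.Sub C →
      (T.Hit ν fun x => C.var.On x) → ∃ y : T.I → C.var.Cyc K, (∀ j, Var.deg (y j) ≠ 0) ∧
        ∀ r : ℕ, ∃ c : T.I → ℤ, Var.deg (∑ j, c j • y j) = Var.deg z ∧
          ∀ a ∈ X.Bw, M ^ r • a = 0 → X.prG (∑ j, c j • y j) a = Var.pr z a := by
  have A := h1 k X n hX hn
  let := ν.toNormedField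
  have := hν.2
  obtain ⟨T, _, L, x, W, h, hc⟩ := (charts_of hX hn K).cover_cls (cyc_mem z) (M := M)
    (by rwa [← map_natCast (algebraMap K (Cb K)), _root_.map_ne_zero])
  obtain ⟨ε, hε, hW⟩ : ∃ ε > 0, ∀ j, Metric.ball (x j) ε ⊆ W j := by
    have h3 : ∀ᶠ ε in 𝓝[>] (0 : ℝ), ∀ j, Metric.ball (x j) ε ⊆ W j :=
      eventually_all.2 fun j => (eventually_ball_subset (h j).2.2).filter_mono
        nhdsWithin_le_nhds
    obtain ⟨ε, h4, h5⟩ := (h3.and self_mem_nhdsWithin).exists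
    exact ⟨ε, h5, h4⟩
  refine ⟨⟨T, L, fun j => ZFy.U.up (x j), ε, fun j => (h j).1, fun j i => (x j i).2,
    fun j => ((ptL_iff X K _ _).1 (h j).2.1).1, hε⟩, fun C hC hT => ?_⟩
  choose x' hn hon using hT
  have hp := fun j => (ptL_iff X K (L j) (x' j)).2 ⟨hC _ _ (hon j), fun i => (hn j i).1⟩
  choose y hy1 hy2 using fun j =>
    (have := (h j).1; ptc A hC (L := L j) (fun i => (hn j i).1) (hon j))
  refine ⟨y, fun j => ?_, fun r => ?_⟩
  · have := (h j).1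
    rw [hy1]
    exact Int.natCast_ne_zero.2 finrank_pos.ne'
  obtain ⟨c, w, hw, e⟩ := hc (fun j i => ⟨x' j i, (hn j i).1⟩)
    (fun j => ⟨hW j (near_ball hε (hn j)), hp j⟩) r
  obtain ⟨u, rfl⟩ := cyc_surj hw.1
  replace e : M ^ r • cyc X K u = cyc X K z - ∑ j, c j • pc (X.JK K) (L j) (x' j) := e
  refine ⟨c, ?_, fun a ha h0 => ?_⟩
  · have e1 := congrArg Prod.snd e
    rw [Prod.smul_snd, show (cyc X K u).2 = 0 from hw.2, smul_zero, Prod.snd_sub, cyc_snd,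
      Prod.snd_sum, eq_comm, sub_eq_zero] at e1
    rw [e1, ← degH_apply, map_sum]
    exact Finset.sum_congr rfl fun j _ => by
      rw [map_zsmul, degH_apply, hy1, Prod.smul_snd, pc_snd]
  · obtain ⟨B, _, χ, φ, hχ, hq, hcy⟩ := exists_rep K h2 A sub_slf ha
    have e1 := congrArg φ e
    have e2 : M ^ r • X.prG (C := slf X) u a = 0 := by
      rw [← prG_nsmul A sub_slf ha, h0, ← zero_nsmul a, prG_nsmul A sub_slf ha, zero_nsmul]
    rw [map_nsmul, map_sub, map_sum, hcy, hcy, ← map_nsmul, e2, map_zero, eq_comm,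
      sub_eq_zero] at e1
    refine hχ (Eq.trans ?_ e1.symm)
    change (χ.comp (prH K C a)) _ = _
    rw [map_sum]
    refine Finset.sum_congr rfl fun j _ => ?_
    rw [map_zsmul, map_zsmul, hq _ _ (h j).1 (hp j), ← hy2 j a ha]
    rfl

/-- along an ultrafilter the coefficients are constant modulo `δ` -/
theorem bad_res {I ι : Type} [Finite I] (U : Ultrafilter ι) (c : ι → I → ℤ) {δ : ℤ} (h : δ ≠ 0) :
    ∃ r₀, ∀ᶠ r in U, ∀ j, δ ∣ c r j - c r₀ j := by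
  have : NeZero δ.natAbs := ⟨Int.natAbs_ne_zero.2 h⟩
  have h1 : ∀ᶠ r in U, ∃ ρ : I → ZMod δ.natAbs, (fun j => (c r j : ZMod δ.natAbs)) = ρ :=
    Eventually.of_forall fun r => ⟨_, rfl⟩
  obtain ⟨ρ, hρ⟩ := Ultrafilter.eventually_exists_iff.1 h1
  obtain ⟨r₀, h0⟩ := hρ.exists
  exact ⟨r₀, hρ.mono fun r hr j => Int.natAbs_dvd.1
    ((ZMod.intCast_eq_intCast_iff_dvd_sub _ _ _).1 (congrFun (h0.trans hr.symm) j))⟩

theorem prim_up {A : Type} [AddCommGroup A] {M s : ℕ} {a : A} (h : M ^ s • a = 0) (d : ℕ) :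
    M ^ (d + s) • a = 0 := by rw [pow_add, mul_nsmul', h, nsmul_zero]

theorem covl (h1 : EV) (h2 : WR) (h3 : LCA) (hX : X.Nice n) (hn : 1 ≤ n) (hν : LocAbv K ν)
    (z : X.Cyc K) {M : ℕ} (hM : (M : K) ≠ 0) : ∃ T : PFam X K, ∀ C : Gen k X.N, C.var.Nice 1 →
      X.Sub C → (T.Hit ν fun x => C.var.On x) → ∃ y : C.var.Cyc K, Var.deg y = Var.deg z ∧
        ∀ a ∈ X.Bw, Prim M a → X.prG y a = Var.pr z a := by
  obtain ⟨T, hT⟩ := cover_fix h1 h2 hX hn hν z hM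
  refine ⟨T, fun C hC hs h => ?_⟩
  obtain ⟨y, hy, hc⟩ := hT C hs h
  choose c c1 c2 using hc
  rcases isEmpty_or_nonempty T.I with _ | ⟨⟨j₀⟩⟩
  · refine ⟨_, c1 0, fun a ha ⟨r, hr⟩ => Eq.trans ?_ (c2 r a ha hr)⟩
    rw [Fintype.sum_empty, Fintype.sum_empty]
  obtain ⟨r₀, h0⟩ := bad_res (hyperfilter ℕ) c (hy j₀)
  have key : ∀ r, ∃ w : C.var.Cyc K, Var.deg w = 0 ∧ ((∀ j, Var.deg (y j₀) ∣ c r j - c r₀ j) →
      ∑ j, c r j • y j = ∑ j, c r₀ j • y j + Var.deg (y j₀) • w) := fun r => by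
    by_cases hr : ∀ j, Var.deg (y j₀) ∣ c r j - c r₀ j
    · choose e he using hr
      have e1 : ∑ j, c r j • y j = ∑ j, c r₀ j • y j + Var.deg (y j₀) • ∑ j, e j • y j := by
        rw [Finset.smul_sum, ← Finset.sum_add_distrib]
        exact Finset.sum_congr rfl fun j _ => by rw [← mul_smul, ← he, ← add_smul, add_sub_cancel]
      refine ⟨_, ?_, fun _ => e1⟩
      have e2 := congrArg (degH _ K) e1
      rw [map_add, map_zsmul, degH_apply, degH_apply, degH_apply, c1, c1, left_eq_add] at e2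
      exact (mul_eq_zero.1 e2).resolve_left (hy j₀)
    · exact ⟨0, rfl, fun h => absurd h hr⟩
  choose w w1 w2 using key
  obtain ⟨z₀, z1, z2⟩ := real_d h1 h2 h3 hX hn hC hs hν (y j₀) (hyperfilter ℕ) w1
  refine ⟨∑ j, c r₀ j • y j + z₀, by rw [deg_add, c1, z1, add_zero], fun a ha ⟨s, hs⟩ => ?_⟩
  obtain ⟨r, ⟨a1, a2⟩, a3⟩ := ((h0.and (z2 a ha)).and
    ((eventually_ge_atTop s).filter_mono Nat.hyperfilter_le_atTop)).exists
  obtain ⟨d, rfl⟩ := Nat.exists_eq_add_of_le' a3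
  rw [← c2 (d + s) a ha (prim_up hs d), w2 _ a1, prG_add, prG_add, a2]

end Pool.Agent.ZCy.F.Uw
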