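import Pool.Agent.Lib.MP_72c364_ag.ZQ.Defs
import Pool.Agent.Lib.MP_751085_ag.ZF.C.Chf
import Pool.Agent.Lib.MP_751085_ag.ZF.C.N1
import Pool.Agent.Lib.MP_751085_ag.ZC.CY2

/-! Base change of varieties. -/

namespace Pool.Agent.ZCy

open scoped Classical
open MvPolynomial Set

variable {k K : Type} [Field k] [Field K] [Algebra k K] {X : Var k} {X' X'' : Gen K X.N} {n : ℕ}

theorem bc_memI {G : Fm X.N k} (h : ∃ m, G.IsHomogeneous m) (hG : G ∈ Ideal.span X.I) :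
    G ∈ X.I := ⟨h, (grad_mem_span (fun _ h => h.2) hG).1⟩

theorem bc_sub (h : X.IsBC X') : X.IK K ⊆ X'.var.I := by
  rintro _ ⟨G, hG, rfl⟩
  exact bc_memI (X := X'.var) (hG.1.imp fun _ h => h.map _)
    (Eq.ge h (Ideal.subset_span ⟨G, hG, rfl⟩))

theorem bc_span (h : X.IsBC X') {G : Fm X.N K} (hG : G ∈ X'.var.I) : G ∈ Ideal.span (X.IK K) :=
  Eq.le h (Ideal.subset_span hG)

theorem bc_of (h1 : X.IK K ⊆ X'.var.I) (h2 : ∀ G ∈ X'.var.I, G ∈ Ideal.span (X.IK K)) :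
    X.IsBC X' := le_antisymm (Ideal.span_le.2 h2) (Ideal.span_mono h1)

theorem bc_zr (h : X.IsBC X') {S : Type} [CommRing S] [Algebra K S] [Algebra k S]
    [IsScalarTower k K S] {x : Fin (X.N + 1) → S} : X'.var.Zr x ↔ X.Zr x :=
  ⟨fun hx G hG => (aeval_map_algebraMap K x G).symm.trans (hx _ (bc_sub h ⟨G, hG, rfl⟩)),
    fun hx _ hG => Zer.span ((Var.zer_IK (algebraMap K S)
      fun a => (IsScalarTower.algebraMap_apply k K S a).symm).2 hx) (bc_span h hG)⟩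

theorem bc_on (h : X.IsBC X') {M : Type} [Field M] [Algebra K M] [Algebra k M]
    [IsScalarTower k K M] {x : Fin (X.N + 1) → M} : X'.var.On x ↔ X.On x :=
  and_congr_right fun _ => bc_zr h

theorem bc_I (h : X.IsBC X') (h' : X.IsBC X'') : X'.var.I = X''.var.I :=
  Set.ext fun _ => ⟨fun hG => bc_memI (X := X''.var) hG.1 (Eq.ge h' (bc_span h hG)),
    fun hG => bc_memI (X := X'.var) hG.1 (Eq.ge h (bc_span h' hG))⟩

theorem bc_jac (h : X.IsBC X') {Ω : Type} [Field Ω] [Algebra K Ω] [Algebra k Ω]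
    [IsScalarTower k K Ω] {x : Fin (X.N + 1) → Ω} (hx : X'.var.On x) : X'.var.jac x = X.jac x := by
  have e : grad x '' X.IK K = grad x '' X.I := by
    rw [Var.IK, image_image]
    refine image_congr fun G _ => funext fun i => ?_
    exact (congrArg (aeval x) pderiv_map).trans (aeval_map_algebraMap K x (pderiv i G))
  have h1 : ∀ G ∈ X.IK K, aeval x G = 0 := fun G hG => hx.2 G (bc_sub h hG)
  refine le_antisymm (Submodule.span_le.2 ?_) (Submodule.span_mono ?_)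
  · rintro _ ⟨G, hG, rfl⟩
    have h2 := (grad_mem_span h1 (bc_span h hG)).2
    rw [e] at h2
    exact h2
  · rw [← e]
    exact image_mono (bc_sub h)

theorem bc_smooth (hX : X.Nice n) (h : X.IsBC X') (x : X'.var.Pt (AlgebraicClosure K)) :
    X'.var.jacRank (AlgebraicClosure K) x + n = X.N := by
  have hx : X'.var.On x.1 := ⟨fun e => x.2.1.elim fun i hi =>
    one_ne_zero (hi.symm.trans (congrFun e i)), x.2.2⟩
  have h1 := hX.finrank_jac ((bc_on h).1 hx)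
  rw [← bc_jac h hx] at h1
  exact h1

theorem bc_deg (k : Type) [Field k] (m : ℕ) : ∃ d, m ≤ d ∧ (d : k) ≠ 0 := by
  by_cases h : (m : k) = 0
  · exact ⟨m + 1, by omega, by rw [Nat.cast_succ, h, zero_add]; exact one_ne_zero⟩
  · exact ⟨m, le_rfl, h⟩

theorem bc_exists [Infinite k] (hX : X.Nice n) (hn : 1 ≤ n) (K : Type) [Field K] [Algebra k K] :
    ∃ X' : Gen K X.N, X'.var.Nice n ∧ X.IsBC X' := by
  have hσ : Fintype.card (Fin (n - 1)) + 1 = n := by rw [Fintype.card_fin]; omega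
  obtain ⟨i, hi⟩ := X.one
  obtain ⟨d, hd, hk⟩ := bc_deg k 2
  obtain ⟨c, -⟩ := n1p_thm k X n hX _ hσ k ∅ (by simp) (MvPolynomial.X i)
    ⟨1, isHomogeneous_X _ _⟩ (fun h => one_ne_zero (hi.symm.trans ((aeval_X _ _).symm.trans h.2)))
    d hd hk
  obtain ⟨c', -⟩ := c.exists_map (algebraMap k K) (GG' := X.IK K)
    (fun G hG => Ideal.subset_span (by rwa [X.IK_self]))
    (fun _ _ _ _ hx => by rw [X.IK_self]; exact Zer.map_image.1 hx)
  obtain ⟨Y, h1, h2, h3⟩ := c'.exists_gen (hX.chart_giP c' hσ)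
  rw [hσ] at h2
  have h4 : X.IK K ⊆ Y.var.I := fun G hG => h3 ▸ ⟨by
    obtain ⟨G, hG, rfl⟩ := hG
    exact hG.1.imp fun _ h => h.map _, c'.dv_on G hG⟩
  let : Algebra k Y.F := ((algebraMap K Y.F).comp (algebraMap k K)).toAlgebra
  have : IsScalarTower k K Y.F := IsScalarTower.of_algebraMap_eq fun _ => rfl
  have h5 : X.On Y.g := ⟨Y.var.on_g.1, fun G hG =>
    (aeval_map_algebraMap K Y.g G).symm.trans (h4 ⟨G, hG, rfl⟩).2⟩
  obtain ⟨j, hj⟩ := Y.one
  have h6 : X.IsBC Y := bc_of h4 fun G hG => hG.1.elim fun m hm =>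
    hX.gen_spanP h5 hj (Var.rk_g (X := Y.var) h2).ge hm hG.2
  exact ⟨Y, ⟨h1, h2, bc_smooth hX h6⟩, h6⟩

theorem bc_nice [Infinite k] (hX : X.Nice n) (hn : 1 ≤ n) (h : X.IsBC X') : X'.var.Nice n := by
  obtain ⟨Y, hY, h'⟩ := bc_exists hX hn K
  have e := bc_I h h'
  have h1 : Y.var.On X'.g := ⟨X'.var.on_g.1, fun G hG => (e.ge hG).2⟩
  have h2 : X'.var.Zr Y.g := fun G hG => (e.le hG).2
  obtain ⟨i, hi⟩ := Y.one
  obtain ⟨j, hj⟩ := X'.one
  obtain ⟨T, hc, hT⟩ := exists_indep_of_le_rk (Var.rk_g (X := Y.var) hY.dim).ge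
  have h3 := rk_range_iff.2 (dim_indep (X := X'.var) h2 hi hT)
  rw [Fintype.card_coe, hc] at h3
  obtain ⟨γ, hγ, u, hu, hg⟩ := h1.exists_dom hY.dim hj
    (h3.trans (rk_le_of_acl fun a _ => X'.var.mem_acl_g a))
  let φ : Y.F →ₐ[K] X'.F := ⟨γ, hγ⟩
  have h4 : Function.Surjective φ := fun a => by
    have h5 : IntermediateField.adjoin K (range X'.g) ≤ φ.fieldRange := by
      refine IntermediateField.adjoin_le_iff.2 ?_
      rintro _ ⟨l, rfl⟩
      refine ⟨Y.g l / Y.g j, ?_⟩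
      have h6 : u * γ (Y.g j) = 1 := (hg j).symm.trans hj
      change γ _ = _
      rw [map_div₀, ← mul_div_mul_left _ _ hu, h6, div_one]
      exact (hg l).symm
    exact h5 (X'.gen ▸ IntermediateField.mem_top)
  let ψ := AlgEquiv.ofBijective φ ⟨γ.injective, h4⟩
  refine ⟨fun a ha => ?_, ψ.trdeg_eq.symm.trans hY.dim, bc_smooth hX h⟩
  obtain ⟨b, rfl⟩ := h4 a
  obtain ⟨c, rfl⟩ := hY.geom b ((isAlgebraic_algHom_iff φ γ.injective).1 ha)
  exact ⟨c, (hγ c).symm⟩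

theorem bc_le {Y : Gen k X.N} {Y' : Gen K X.N} (h : X.IsBC X') (h' : Y.var.IsBC Y')
    (hY : X.I ⊆ Y.var.I) : X'.var.I ⊆ Y'.var.I := fun _ hG =>
  bc_memI (X := Y'.var) hG.1 (Eq.ge h' (Ideal.span_mono (image_mono hY) (bc_span h hG)))

end Pool.Agent.ZCy
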