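import Pool.Agent.Lib.MP_751085_ag.ZF.Defs
import Pool.Agent.Lib.MP_751085_ag.ZC.PDefs

/-! Local-global statements for zero-cycles at a prime `l`. -/

namespace Pool.Agent.ZCy

open scoped Classical

attribute [local instance] bsGroup bsMonoid bsAddZero bsZero bsSMul Place.field Place.alg

variable {k : Type} [Field k] (X : Var k)

/-- `X'` is the base change of `X` to `K`: its ideal is generated by the ideal of `X` -/
def Var.IsBC {K : Type} [Field K] [Algebra k K] (X' : Gen K X.N) : Prop :=
  Ideal.span X'.var.I = Ideal.span (MvPolynomial.map (algebraMap k K) '' X.I)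

variable {X}

/-- the multiplicity of the point `y` of `ℙ^N(Ω)` in the base change to `Ω` of the cycle `z`: a
closed point is the sum of its conjugates times its inseparable degree -/
noncomputable def Var.mult {L : Type} [Field L] [Algebra k L] (z : X.Cyc L) (Ω : Type) [Field Ω]
    [Algebra L Ω] (y : Fin (X.N + 1) → Ω) : ℤ :=
  z.sum fun x n => if ∃ (s : AlgebraicClosure L →ₐ[L] Ω) (c : Ω), c ≠ 0 ∧ ∀ i, y i = c * s (x.1 i)
    then n * Field.finInsepDegree L (Var.res x) else 0

/-- `z'` is the base change of `z` to `K` -/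
def Var.IsExt {K : Type} [Field K] [Algebra k K] (z : X.Cyc k) (z' : X.Cyc K) : Prop :=
  ∀ y, Var.mult z' (AlgebraicClosure K) y = Var.mult z (AlgebraicClosure K) y

/-- the pairing of a cycle on `X_K` with a class on the base change `X'` -/
noncomputable def Var.pairB {K : Type} [Field K] [Algebra k K] (X' : Gen K X.N) (z : X.Cyc K)
    (α : Brs X'.F (AlgebraicClosure X'.F)) : Brs K (AlgebraicClosure K) :=
  z.sum fun x n => n • coresS (Var.res x) (Classical.epsilon (X'.var.Val α fun i =>
    (⟨x.1 i, IntermediateField.subset_adjoin _ _ ⟨i, rfl⟩⟩ : Var.res x)))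

/-- the family `z` is orthogonal to the `l`-primary part of the Brauer group -/
def Var.Orth (l : ℕ) (j : Invs k) (z : ∀ v : Place k, X.Cyc v.K) : Prop :=
  ∀ α ∈ X.BrX, (∃ r : ℕ, (l : ℤ) ^ r • α = 0) → ∑ᶠ v, j.fin v (Var.pairS (z v) α) = 0

/-- the base change of `z₀` to `K` and `z` have the same pairing with all classes on `X_K` killed
by `l ^ r` -/
def Var.Apx (l r : ℕ) {K : Type} [Field K] [Algebra k K] (z₀ : X.Cyc k) (z : X.Cyc K) : Prop :=
  ∃ z' : X.Cyc K, Var.IsExt z₀ z' ∧ ∀ X' : Gen K X.N, X.IsBC X' → ∀ α ∈ X'.var.BrX,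
    (l : ℤ) ^ r • α = 0 → Var.pairB X' z' α = Var.pairB X' z α

variable (X)

/-- a family of local cycles orthogonal to the `l`-primary part of the Brauer group is
approximated by global cycles against all local classes killed by `l ^ r` -/
def Var.El (l : ℕ) (j : Invs k) : Prop :=
  ∀ z : ∀ v : Place k, X.Cyc v.K, Var.Orth l j z → ∀ r : ℕ, ∃ z₀ : X.Cyc k, ∀ v : Place k,
    Var.Apx l r z₀ (z v)

/-- local cycles of degree prime to `l` orthogonal to the `l`-primary part of the Brauer group
give a global cycle of degree prime to `l` -/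
def Var.Pl (l : ℕ) (j : Invs k) : Prop :=
  (∃ z : ∀ v : Place k, X.Cyc v.K, (∀ v, ¬(l : ℤ) ∣ Var.deg (z v)) ∧ Var.Orth l j z) →
    ∃ z : X.Cyc k, ¬(l : ℤ) ∣ Var.deg z

end Pool.Agent.ZCy
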