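import Pool.Agent.Lib.MP_72c364_ag.ZQ.Bad
import Pool.Agent.Lib.MP_751085_ag.ZC.UDet

/-! A cycle moves to a curve that detects the classes that are not constant. -/

namespace Pool.Agent.ZCy.F.Uw

open Pool.Agent.ZFN Pool.Agent.ZFy.U Module Filter
open scoped Classical

variable {k : Type} [Field k] {X : Var k} {n : ℕ} {K : Type} [Field K] [Algebra k K]
  {ν : AbsoluteValue (Cb K) ℝ} {C : Gen k X.N}

theorem prG_zero (E : EvApi X) (hC : X.Sub C) (z : C.var.Cyc K) : X.prG z 0 = 0 := by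
  have := prG_nsmul E hC (zero_mem _) z 0
  rwa [zero_nsmul, zero_nsmul] at this

theorem prG_add' (E : EvApi X) (hC : X.Sub C) {a b : BR X.F} (ha : a ∈ X.Bw) (hb : b ∈ X.Bw)
    (z : C.var.Cyc K) : X.prG z (a + b) = X.prG z a + X.prG z b := by
  induction z using Finsupp.induction_linear with
  | zero => exact (add_zero (0 : BR K)).symm
  | add y z hy hz =>
    rw [prG_add, prG_add, prG_add, hy, hz]
    exact add_add_add_comm (X.prG y a) _ _ _
  | single x m =>
    obtain ⟨v, hv⟩ := exists_up (X := X) (pt_mem_res x)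
    have h1 := hC _ _ (pt_on x)
    rw [hv] at h1
    rw [prG_single, prG_single, prG_single, hv, ptv_up, ptv_up, ptv_up,
      E.val_add a ha b hb _ v (on_up.1 h1), map_add]
    exact zsmul_add (corN K _ (X.vl a _ v)) _ m

theorem prG_sum (E : EvApi X) (hC : X.Sub C) {I : Type} (s : Finset I) {a : I → BR X.F}
    (ha : ∀ i, a i ∈ X.Bw) (z : C.var.Cyc K) :
    X.prG z (∑ i ∈ s, a i) = ∑ i ∈ s, X.prG z (a i) := by
  induction s using Finset.induction_on with
  | empty => exact prG_zero E hC z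
  | insert i s hi ih =>
    rw [Finset.sum_insert hi, Finset.sum_insert hi,
      prG_add' E hC (ha i) (sum_mem fun i _ => ha i), ih]

theorem prim_fin {A I : Type} [AddCommGroup A] [Fintype I] {M : ℕ} {a : I → A}
    (h : ∀ i, Prim M (a i)) : ∃ r, ∀ i, M ^ r • a i = 0 := by
  choose r hr using h
  refine ⟨Finset.univ.sup r, fun i => ?_⟩
  obtain ⟨d, hd⟩ := Nat.exists_eq_add_of_le' (Finset.le_sup (f := r) (Finset.mem_univ i))
  rw [hd]
  exact prim_up (hr i) d

/-- duality for finitely many classes -/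
theorem dual_fin (E : EvApi X) (hC : X.Sub C) {j : BR K →+ AddCircle (1 : ℚ)}
    (hj : Function.Injective j) {M : ℕ} (hM : 0 < M)
    (hk : ∀ a ∈ X.Bw, Prim M a → (Kills X K a fun x => C.var.On x) → Kills X K a fun x => X.On x)
    {u : X.Cyc K} (hu : Var.deg u = 0) {I : Type} [Fintype I] {a : I → BR X.F}
    (ha : ∀ i, a i ∈ X.Bw) (hp : ∀ i, Prim M (a i)) :
    ∃ w : C.var.Cyc K, Var.deg w = 0 ∧ ∀ i, X.prG w (a i) = Var.pr u (a i) := by
  obtain ⟨r, hr⟩ := prim_fin hp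
  obtain ⟨w, hw⟩ := U.det_dual hj (fun i => (prH K C (a i)).comp (degH C.var K).ker.subtype)
    (fun i => Var.pr u (a i)) (pow_pos hM r)
    (fun i w => (prG_nsmul E hC (ha i) w.1 _).symm.trans (by rw [hr]; exact prG_zero E hC _))
    (fun i => (prG_nsmul E sub_slf (ha i) u _).symm.trans (by rw [hr]; exact prG_zero E sub_slf _))
    fun m hm => by
      have h1 : ∑ i, m i • a i ∈ X.Bw := sum_mem fun i _ => nsmul_mem (ha i) _
      have h2 : ∀ {C' : Gen k X.N}, X.Sub C' → ∀ y : C'.var.Cyc K,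
          X.prG y (∑ i, m i • a i) = ∑ i, m i • X.prG y (a i) := fun h y => by
        rw [prG_sum E h _ fun i => nsmul_mem (ha i) _]
        exact Finset.sum_congr rfl fun i _ => prG_nsmul E h (ha i) y _
      refine (h2 sub_slf u).symm.trans ((kills_slf E h1).1 (hk _ h1 ⟨r, ?_⟩
        ((kills_iff E hC h1).2 fun y hy => (h2 hC y).trans (hm ⟨y, hy⟩))) u hu)
      rw [Finset.smul_sum]
      exact Finset.sum_eq_zero fun i _ => by rw [smul_comm, hr]; exact nsmul_zero (M := BR X.F) _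
  exact ⟨w.1, w.2, hw⟩

theorem duall [Infinite k] (h1 : EV) (h2 : WR) (h3 : LCA) (hX : X.Nice n) (hn : 1 ≤ n)
    (hν : LocAbv K ν) {j : BR K →+ AddCircle (1 : ℚ)} (hj : Function.Injective j)
    (hC : C.var.Nice 1) (hs : X.Sub C)
    (hp : ∃ m₀ : ℕ, ∀ m, m₀ ≤ m → ∃ (L : IntermediateField K (Cb K)) (x : Fin (X.N + 1) → Cb K),
      FiniteDimensional K L ∧ finrank K L = m ∧ (∀ i, x i ∈ L) ∧ C.var.On x) {M : ℕ} (hM : 0 < M)
    (hk : ∀ a ∈ X.Bw, Prim M a → (Kills X K a fun x => C.var.On x) → Kills X K a fun x => X.On x)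
    (z : X.Cyc K) : ∃ y : C.var.Cyc K, Var.deg y = Var.deg z ∧
      ∀ a ∈ X.Bw, Prim M a → X.prG y a = Var.pr z a := by
  have E := h1 k X n hX hn
  obtain ⟨y, hy⟩ : ∃ y : C.var.Cyc K, Var.deg y = 1 := by
    obtain ⟨m, hm⟩ := hp
    obtain ⟨L, x, _, a1, a2, a3⟩ := hm m le_rfl
    obtain ⟨L', x', _, b1, b2, b3⟩ := hm (m + 1) m.le_succ
    obtain ⟨y, e, -⟩ := ptc E hs a2 a3
    obtain ⟨y', e', -⟩ := ptc E hs b2 b3
    exact ⟨y' - y, by rw [← degH_apply, map_sub, degH_apply, degH_apply, e, e', a1, b1]; simp⟩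
  obtain ⟨y', e1, e2⟩ := push hs (Var.deg z • y)
  have e3 : Var.deg (Var.deg z • y) = Var.deg z := by
    rw [← degH_apply, map_zsmul, degH_apply y, hy, zsmul_one, Int.cast_id]
  let P := {a : BR X.F // a ∈ X.Bw ∧ Prim M a}
  choose w w1 w2 using fun s : Finset P => dual_fin E hs hj hM hk (u := z - y')
    (by rw [← degH_apply, map_sub, degH_apply, degH_apply, e1, e3, sub_self])
    (a := fun i : s => i.1.1) (fun i => i.1.2.1) fun i => i.1.2.2
  obtain ⟨z₀, z1, z2⟩ := real_of h1 h2 h3 k X n hX hn C hC hs K ν hν ⟨y, hy⟩ _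
    (Ultrafilter.of (atTop : Filter (Finset P))) w w1
  refine ⟨Var.deg z • y + z₀, by rw [deg_add, e3, z1, add_zero], fun a ha hp => ?_⟩
  obtain ⟨s, a1, a2⟩ := ((z2 a ha).and ((eventually_ge_atTop {(⟨a, ha, hp⟩ : P)}).filter_mono
    (Ultrafilter.of_le _))).exists
  rw [prG_add, ← a1, w2 s ⟨⟨a, ha, hp⟩, a2 (Finset.mem_singleton_self _)⟩, ← e2]
  exact (prG_add (C := slf X) y' (z - y') a).symm.trans (by rw [add_sub_cancel]; rfl)

end Pool.Agent.ZCy.F.Uw
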