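import Pool.Agent.Lib.MP_751085_ag.ZF.U.LApi

/-! Forms whose neighbours cut out curves that pass near given points. -/

namespace Pool.Agent.ZCy.F.Uw

open Pool.Agent.ZFN Pool.Agent.ZFy.U Filter Topology MvPolynomial
open scoped Classical

attribute [local instance] Place.field Place.alg

variable {k : Type} [Field k]

variable (k) in
/-- the empty family of jets -/
def J0 (N : ℕ) : Jets k N := { K := k, s := 0, Q := Fin.elim0, w := Fin.elim0 }

theorem jok0 (X : Var k) : X.JOk (J0 k X.N) :=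
  ⟨fun j => j.elim0, fun j => j.elim0, fun j => j.elim0, fun _ _ _ _ _ j => j.elim0⟩

theorem vanK0 {N d : ℕ} {K : Type} [Field K] [Algebra k K] {f : Fm N K} (h : f.IsHomogeneous d) :
    (J0 k N).VanK d K f := by
  rw [Jets.VanK, f.as_sum]
  refine sum_mem fun m hm => ?_
  rw [← mul_one (coeff m f), ← smul_eq_mul, ← smul_monomial]
  refine Submodule.smul_mem _ _ (Submodule.subset_span ⟨monomial m 1, ⟨isHomogeneous_monomial _ ?_,
    fun j => j.elim0⟩, by rw [map_monomial, map_one]⟩)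
  by_contra e
  exact mem_support_iff.1 hm (h.coeff_eq_zero e)

theorem val_nhds {K Γ : Type} [Field K] [LinearOrderedCommGroupWithZero Γ] [Valued K Γ] (y₀ c : K) :
    ∀ᶠ y in 𝓝 y₀, Valued.v ((y - y₀) * c) ≤ Valued.v (1 : K) := by
  have h1 : Tendsto (fun y => (y - y₀) * c) (𝓝 y₀) (𝓝 0) :=
    Continuous.tendsto' (by fun_prop) _ _ (by rw [sub_self, zero_mul])
  exact (h1.eventually ((Valued.isOpen_integer K).mem_nhds (zero_mem _))).mono fun y hy =>
    le_of_le_of_eq hy (map_one _).symm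

theorem nu_nhds {v : Place k} {ν : AbsoluteValue (Cb v.K) ℝ} (h : NuOk v ν) (y₀ : v.K) {ε : ℝ}
    (hε : 0 < ε) : ∀ᶠ y in 𝓝 y₀, ν (algebraMap v.K (Cb v.K) (y - y₀)) < ε := by
  let := ν.toNormedField
  obtain ⟨c, hc⟩ : ∃ c : v.K, 1 < ν (algebraMap _ _ c) := h.1.2.nontriv
  obtain ⟨m, hm⟩ := pow_unbounded_of_one_lt ε⁻¹ hc
  refine (val_nhds y₀ (c ^ m)).mono fun y hy => ?_
  have h2 := (h.2 _ 1).2 hy
  rw [map_one, map_one, map_mul, map_mul, map_pow, map_pow] at h2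
  have h3 := mul_lt_mul_of_pos_left hm hε
  rw [mul_inv_cancel₀ hε.ne'] at h3
  exact lt_of_mul_lt_mul_right (h2.trans_lt h3) (by positivity)

theorem form0 [Infinite k] {X : Var k} {n : ℕ} (hX : X.Nice n) {σ : Type} [Fintype σ]
    (hσ : Fintype.card σ + 1 = n) {v : Place k} {ν : AbsoluteValue (Cb v.K) ℝ} (h : NuOk v ν)
    (T : PFam X v.K) : ∃ d₃ : ℕ, ∀ d, d₃ ≤ d → ∃ (fv : σ → Fm X.N v.K)
      (W : σ → Set ((Fin (X.N + 1) →₀ ℕ) → v.K)),
      (∀ i, (J0 k X.N).VanK d v.K (fv i) ∧ W i ∈ 𝓝 (cf (fv i))) ∧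
      ∀ (C : Gen k X.N) (g : σ → Fm X.N k), X.Cut C g → (∀ i, (J0 k X.N).Van d (g i)) →
        (∀ i, cf (map (algebraMap k v.K) (g i)) ∈ W i) → T.Hit ν fun x => C.var.On x := by
  obtain ⟨x', d₁, h1, h2⟩ := uapi_locf hX hσ h.1 T 1 ⟨0, isHomogeneous_one _ _⟩ fun e =>
    one_ne_zero ((map_one _).symm.trans e.2)
  refine ⟨d₁, fun d hd => ?_⟩
  obtain ⟨H, h3, h4⟩ := h2 d hd
  choose ε hε h5 using fun j => uapi_ift hX hσ h.1 (T.L j) (x' j) d H (T.fd j)
    (fun i => ((h1 j).1 i).1) (h1 j).2.1 h3 (h4 j).1 (h4 j).2 T.ε T.pos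
  refine ⟨H, fun i => {c | ∀ j, ∀ m ∈ {m : Fin (X.N + 1) →₀ ℕ | m.degree = d},
    ν (algebraMap v.K (Cb v.K) (c m - coeff m (H i))) < ε j}, fun i => ⟨vanK0 (h3 i), ?_⟩,
    fun C g hC hg hW j => ?_⟩
  · exact eventually_all.2 fun j => (eventually_all_finite (Finsupp.finite_of_degree_eq d)).2
      fun m _ => (continuous_apply m).continuousAt.eventually (nu_nhds h (coeff m (H i)) (hε j))
  · obtain ⟨x, a1, a2, a3⟩ := h5 j (fun i => map (algebraMap k v.K) (g i))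
      (fun i => (hg i).1.map _) fun i m => by
        by_cases e : m.degree = d
        · exact hW i j m e
        · rw [((hg i).1.map _).coeff_eq_zero e, (h3 i).coeff_eq_zero e, sub_zero, map_zero, map_zero]
          exact hε j
    refine ⟨x, fun i => ⟨(a1 i).1, ?_⟩, (hC _ x).2 ⟨a2, fun i => ?_⟩⟩
    · let := ν.toNormedField
      have := h.1.1
      rw [← sub_add_sub_cancel _ (x' j i)]
      exact (IsUltrametricDist.norm_add_le_max (x i - x' j i) (x' j i - T.x j i)).trans_lt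
        (max_lt (b := ν _) (c := ν _) (a1 i).2 ((h1 j).1 i).2)
    · rw [← aeval_map_algebraMap v.K]
      exact a3 i

end Pool.Agent.ZCy.F.Uw
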