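import Pool.Agent.Lib.MP_751085_ag.ZF.T.Main

/-! The conclusion at a good place for the classes over the completion. -/

namespace Pool.Agent.ZCy.F

open Pool.Agent.ZFN Module MvPolynomial
open scoped Classical

variable {k K : Type} [Field k] [Field K] [Algebra k K] {X : Var k}

theorem bc_on {X' : Gen K X.N} (h : Ideal.span X'.var.I = Ideal.span (X.IK K)) {M : Type} [Field M]
    [Algebra k M] [Algebra K M] [IsScalarTower k K M] {x : Fin (X.N + 1) → M} :
    X'.var.On x ↔ X.On x := by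
  have e := Var.zer_IK (X := X) (algebraMap K M)
    (fun a => (IsScalarTower.algebraMap_apply k K M a).symm) (x := x)
  exact and_congr Iff.rfl ⟨fun hx => e.1 fun G hG => Zer.span (GG := X'.var.I) hx
    (h ▸ Ideal.subset_span hG), fun hx G hG => (e.2 hx).span (h ▸ Ideal.subset_span hG)⟩

theorem bc_cut {ι : Type} {C : Gen k X.N} {g : ι → Fm X.N k} (hC : X.Cut C g) {X' C' : Gen K X.N}
    (hX : Ideal.span X'.var.I = Ideal.span (X.IK K))
    (hC' : Ideal.span C'.var.I = Ideal.span (C.var.IK K)) :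
    X'.var.Cut C' fun i => map (algebraMap k K) (g i) := fun M _ _ x => by
  let := ((algebraMap K M).comp (algebraMap k K)).toAlgebra
  have : IsScalarTower k K M := .of_algebraMap_eq fun _ => rfl
  rw [bc_on (X := C.var) hC', bc_on hX, hC]
  simp only [aeval_map_algebraMap]

theorem good_loc (H : THyp) {σ : Type} [Infinite K] [Fintype σ] {w : Vl K} (hw : Nrm w)
    (hc : Cpl w) (hf : FinR w) {n : ℕ} (hσ : Fintype.card σ + 1 = n) {O₀ : Subring k}
    (hO : ∀ a ∈ O₀, w (algebraMap k K a) ≤ 1) {c : Chart k σ X.N (X.IK k)} {Φ : MP σ k}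
    {C : Gen k X.N} {g : σ → Fm X.N k} {e : ℕ} (hG : X.GoodV c Φ O₀) (hC : X.Cut C g)
    (hg : ∀ i m, w (algebraMap k K (coeff m (g i - c.l0 ^ e * c.f (some (some i))))) < 1)
    {X' C' : Gen K X.N} (hX' : Ideal.span X'.var.I = Ideal.span (X.IK K))
    (hC' : Ideal.span C'.var.I = Ideal.span (C.var.IK K)) (hn : X'.var.Nice n) :
    (∃ m₀ : ℕ, ∀ m, m₀ ≤ m → ∃ (L : IntermediateField K (Cb K)) (x : Fin (X.N + 1) → Cb K),
      FiniteDimensional K L ∧ finrank K L = m ∧ (∀ i, x i ∈ L) ∧ C'.var.On x) ∧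
    ∀ M : ℕ, IsUnit (M : w.integer) → ∀ a ∈ X'.var.Bw, Prim M a →
      (Kills X'.var K a fun x => C'.var.On x) → Kills X'.var K a fun x => X'.var.On x := by
  obtain ⟨GG, c', Φ', c'', h1, hM, hH, m1, m2, h2, hsm, u1, u2, u3⟩ := hG.base (O := w.integer)
    (K := K) (((algebraMap k K).comp O₀.subtype).codRestrict _ fun a => hO a a.2) fun _ => rfl
  have e1 : Ideal.span (X'.var.IK K) = Ideal.span (X.IK K) := by rw [Var.IK_self, hX']
  obtain ⟨c₁, m3⟩ := c''.exists_transfer (GG' := X'.var.IK K)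
    (fun G hG => e1 ▸ Ideal.subset_span hG) fun _ _ _ _ hx G hG =>
      hx.span (e1 ▸ Ideal.subset_span hG)
  refine tgood_loc H (k := K) hw hc hf hn hσ (O₀ := w.integer) (fun a ha => ha) (c := c₁)
    (Φ := map (algebraMap k K) Φ) (e := e) ⟨GG, c', Φ', h1, ⟨hM.1, hM.2.trans e1.symm⟩, hH,
      m2.trans m3, h2, hsm, u1, u2, u3⟩ (bc_cut hC hX' hC') fun i m => ?_
  have e2 := hg i m
  rw [← coeff_map, map_sub, map_mul, map_pow, ← m1.l0, ← m1.f] at e2
  rw [m3.l0, m3.f, map_id, map_id]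
  exact e2

attribute [local instance] Place.field Place.alg

theorem good_bc (H : THyp) (F₀ : Type) [Field F₀] [Finite F₀] [Algebra (RatFunc F₀) k]
    [FiniteDimensional (RatFunc F₀) k] {σ : Type} [Fintype σ] {n : ℕ}
    (hσ : Fintype.card σ + 1 = n) {v : Place k} {c : Chart k σ X.N (X.IK k)} {Φ : MP σ k}
    {C : Gen k X.N} {g : σ → Fm X.N k} {e : ℕ} (hG : X.GoodV c Φ v.1.toSubring) (hC : X.Cut C g)
    (hg : ∀ i m, v.1.valuation (coeff m (g i - c.l0 ^ e * c.f (some (some i)))) < 1)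
    {X' C' : Gen v.K X.N} (hX' : Ideal.span X'.var.I = Ideal.span (X.IK v.K))
    (hC' : Ideal.span C'.var.I = Ideal.span (C.var.IK v.K)) (hn : X'.var.Nice n) :
    (∃ m₀ : ℕ, ∀ m, m₀ ≤ m → ∃ (L : IntermediateField v.K (Cb v.K)) (x : Fin (X.N + 1) → Cb v.K),
      FiniteDimensional v.K L ∧ finrank v.K L = m ∧ (∀ i, x i ∈ L) ∧ C'.var.On x) ∧
    ∀ M : ℕ, (M : k) ≠ 0 → ∀ a ∈ X'.var.Bw, Prim M a →
      (Kills X'.var v.K a fun x => C'.var.On x) → Kills X'.var v.K a fun x => X'.var.On x := by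
  have : Infinite v.K := .of_injective _ ((algebraMap k v.K).injective.comp
    ((algebraMap (RatFunc F₀) k).injective.comp (RatFunc.algebraMap_injective F₀)))
  obtain ⟨π, hπ⟩ := plv_nrm v
  obtain ⟨h1, h2⟩ := good_loc H (w := plw v) ⟨_, (plw_map v π).trans hπ⟩ (plw_cpl v)
    (plw_finR F₀ v) hσ (fun a ha => (plw_map v a).trans_le ((plv_le v a).2 ha)) hG hC
    (fun i m => (plw_map v _).trans_lt ((plv_lt v _).2 (hg i m))) hX' hC' hn
  refine ⟨h1, fun M hM => h2 M (tfma_unit ((algebraMap k v.K).comp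
    ((algebraMap (RatFunc F₀) k).comp RatFunc.C)) _ fun h => hM ?_)⟩
  exact (algebraMap k v.K).injective (by rw [map_natCast, h, map_zero])

end Pool.Agent.ZCy.F
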