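import Pool.Agent.Lib.MP_72c364_ag.ZQ.Raw
import Pool.Agent.Lib.MP_72c364_ag.ZQ.Dual

/-! Moving a local cycle to a curve without changing the pairing with the local classes. -/

namespace Pool.Agent.ZCy.F

open Pool.Agent.ZFN Pool.Agent.ZFy.U Uw Module
open scoped Classical

variable {k K : Type} [Field k] [Infinite k] [Field K] [Algebra k K] {X : Var k} {n l : ℕ}
  {ν : AbsoluteValue (Cb K) ℝ}

variable (l) in
/-- the cycle `y` on `C` can replace the cycle `z` on `X` -/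
def Rep {C : Gen k X.N} (y : C.var.Cyc K) (z : X.Cyc K) : Prop :=
  Var.deg y = Var.deg z ∧ ∀ X' : Gen K X.N, X.IsBC X' → ∀ a ∈ X'.var.Bw, Prim l a →
    rpr X'.var (raw C.var y) a = rpr X'.var (raw X z) a

omit [Infinite k] in
theorem bc_subG {X' C' : Gen K X.N} {C : Gen k X.N} (h : X.IsBC X') (h' : C.var.IsBC C')
    (hC : X.Sub C) : X'.var.Sub C' := fun M _ _ x hx => by
  let : Algebra k M := ((algebraMap K M).comp (algebraMap k K)).toAlgebra
  have : IsScalarTower k K M := IsScalarTower.of_algebraMap_eq fun _ => rfl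
  exact (bc_on h).2 (hC M x ((bc_on (X := C.var) h').1 hx))

theorem rep_of (hE : EV) (hX : X.Nice n) (hn : 1 ≤ n) {X' C' : Gen K X.N} {C : Gen k X.N}
    (h : X.IsBC X') (h' : C.var.IsBC C') (hC : X.Sub C) {z : X.Cyc K} {z' : X'.var.Cyc K}
    (hz : raw X'.var z' = raw X z) (y' : C'.var.Cyc K) (h1 : Var.deg y' = Var.deg z')
    (h2 : ∀ a ∈ X'.var.Bw, Prim l a → X'.var.prG (C := C') y' a = Var.pr z' a) :
    ∃ y : C.var.Cyc K, Rep l y z := by
  have : Infinite K := .of_injective _ (algebraMap k K).injective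
  obtain ⟨y, hy⟩ := exists_mv (X := C.var) (Z := C') (fun x hx => (bc_on (X := C.var) h').1 hx) y'
  refine ⟨y, ((deg_raw hy).trans h1).trans (deg_raw (X := X) (Z := X') hz.symm).symm,
    fun X'' h'' a ha ⟨r, hr⟩ => ?_⟩
  have e := bc_I h'' h
  obtain ⟨b, h3, h4, h5⟩ := res_rpr (X := X''.var) (Y := X')
    (hE K _ n (bc_nice hX hn h'') hn) (hE K _ n (bc_nice hX hn h) hn)
    (X''.var.IK_self.trans e).le ha
  rw [← h5 _ fun x hx => (bc_on h).2 (hC _ x (raw_on y hx)),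
    ← h5 _ fun x hx => (bc_on h).2 (raw_on z hx), hy, ← hz]
  exact (prG_raw (X := X'.var) (C := C') y' b).symm.trans
    ((h2 b h3 ⟨r, h4 _ hr⟩).trans (pr_raw z' b))

theorem loc_bad (h1 : EV) (h2 : WR) (h3 : LCA) (hX : X.Nice n) (hn : 1 ≤ n) (hν : LocAbv K ν)
    (hl : (l : k) ≠ 0) (z : X.Cyc K) : ∃ T : PFam X K, ∀ C : Gen k X.N, C.var.Nice 1 → X.Sub C →
      (T.Hit ν fun x => C.var.On x) → ∃ y : C.var.Cyc K, Rep l y z := by
  have : Infinite K := .of_injective _ (algebraMap k K).injective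
  obtain ⟨X', hX', h⟩ := bc_exists hX hn K
  obtain ⟨z', hz⟩ := exists_mv (X := X'.var) (Z := slf X) (fun x hx => (bc_on h).2 hx) z
  obtain ⟨T, hT⟩ := covl h1 h2 h3 hX' hn hν z' (M := l)
    fun e => hl ((algebraMap k K).injective (by rw [map_natCast, e, map_zero]))
  refine ⟨⟨T.I, T.L, T.x, T.ε, T.fd, T.mem, fun j => (bc_on h).1 (T.on j), T.pos⟩,
    fun C hC hs hh => ?_⟩
  obtain ⟨C', hC', h'⟩ := bc_exists hC le_rfl K
  obtain ⟨y, e1, e2⟩ := hT C' hC' (bc_subG h h' hs) fun j =>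
    (hh j).imp fun x hx => ⟨hx.1, (bc_on (X := C.var) h').2 hx.2⟩
  exact rep_of h1 hX hn h h' hs hz y e1 e2

theorem loc_good (h1 : EV) (h2 : WR) (h3 : LCA) (hX : X.Nice n) (hn : 1 ≤ n) (hν : LocAbv K ν)
    {j : BR K →+ AddCircle (1 : ℚ)} (hj : Function.Injective j) (hl : 0 < l) {C : Gen k X.N}
    (hC : C.var.Nice 1) (hs : X.Sub C)
    (hg : ∀ X' C' : Gen K X.N, X.IsBC X' → C.var.IsBC C' → X'.var.Nice n →
      (∃ m₀ : ℕ, ∀ m, m₀ ≤ m → ∃ (L : IntermediateField K (Cb K)) (x : Fin (X.N + 1) → Cb K),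
        FiniteDimensional K L ∧ finrank K L = m ∧ (∀ i, x i ∈ L) ∧ C'.var.On x) ∧
      ∀ a ∈ X'.var.Bw, Prim l a →
        (Kills X'.var K a fun x => C'.var.On x) → Kills X'.var K a fun x => X'.var.On x)
    (z : X.Cyc K) : ∃ y : C.var.Cyc K, Rep l y z := by
  have : Infinite K := .of_injective _ (algebraMap k K).injective
  obtain ⟨X', hX', h⟩ := bc_exists hX hn K
  obtain ⟨C', hC', h'⟩ := bc_exists hC le_rfl K
  obtain ⟨z', hz⟩ := exists_mv (X := X'.var) (Z := slf X) (fun x hx => (bc_on h).2 hx) z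
  obtain ⟨h4, h5⟩ := hg X' C' h h' hX'
  obtain ⟨y, e1, e2⟩ := duall (X := X'.var) (C := C') h1 h2 h3 hX' hn hν hj hC' (bc_subG h h' hs) h4 hl h5 z'
  exact rep_of h1 hX hn h h' hs hz y e1 e2

end Pool.Agent.ZCy.F
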