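import Pool.Agent.Lib.MP_72c364_ag.ZQ.Res
import Pool.Agent.Lib.MP_751085_ag.ZF.U.Cyc

/-! Cycles as formal sums of coordinate vectors. -/

namespace Pool.Agent.ZCy.F

open Pool.Agent.ZFN Uw Module
open scoped Classical

variable {k k' K : Type} [Field k] [Field k'] [Field K] [Algebra k K] [Algebra k' K] {X : Var k}

variable (X) in
/-- the formal sum of coordinate vectors -/
noncomputable def raw (z : X.Cyc K) : (Fin (X.N + 1) → Cb K) →₀ ℤ :=
  z.mapDomain fun p => p.1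

/-- the field generated by the coordinates -/
noncomputable abbrev rsF {N : ℕ} (x : Fin (N + 1) → Cb K) : IntermediateField K (Cb K) :=
  IntermediateField.adjoin K (Set.range x)

variable (X) in
/-- the pairing of a formal sum with a class -/
noncomputable def rpr (w : (Fin (X.N + 1) → Cb K) →₀ ℤ) (a : BR X.F) : BR K :=
  w.sum fun x n => n • X.ptv a (rsF x) x

theorem sum_raw (z : X.Cyc K) {A : Type} [AddCommGroup A] (f : (Fin (X.N + 1) → Cb K) → A) :
    (raw X z).sum (fun x n => n • f x) = z.sum fun x n => n • f x.1 :=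
  Finsupp.sum_mapDomain_index (fun _ => zero_zsmul _) fun _ _ _ => add_zsmul _ _ _

theorem raw_on (z : X.Cyc K) {x : Fin (X.N + 1) → Cb K} (hx : x ∈ (raw X z).support) : X.On x := by
  obtain ⟨p, -, rfl⟩ := Finset.mem_image.1 (Finsupp.mapDomain_support hx)
  exact pt_on p

theorem pr_raw (z : X.Cyc K) (a : BR X.F) : Var.pr z a = rpr X (raw X z) a :=
  (sum_raw z fun x => X.ptv a (rsF x) x).symm

theorem prG_raw {C : Gen k X.N} (z : C.var.Cyc K) (a : BR X.F) :
    X.prG z a = rpr X (raw C.var z) a :=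
  (sum_raw z fun x => X.ptv a (rsF x) x).symm

theorem exists_mv {Z : Gen k' X.N} (h : ∀ x : Fin (X.N + 1) → Cb K, Z.var.On x → X.On x)
    (z : Z.var.Cyc K) : ∃ z' : X.Cyc K, raw X z' = raw Z.var z := by
  let f : Z.var.Pt (Cb K) → X.Pt (Cb K) := fun p => ⟨p.1, p.2.1, (h _ (pt_on p)).2⟩
  exact ⟨z.mapDomain f,
    (Finsupp.mapDomain_comp (v := z) (f := f) (g := fun p : X.Pt (Cb K) => p.1)).symm⟩

theorem deg_raw {Z : Gen k' X.N} {z : Z.var.Cyc K} {z' : X.Cyc K} (h : raw X z' = raw Z.var z) :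
    Var.deg z' = Var.deg z :=
  (sum_raw z' fun x => (finrank K (rsF x) : ℤ)).symm.trans
    ((congrArg (fun w => Finsupp.sum w _) h).trans (sum_raw z fun x => (finrank K (rsF x) : ℤ)))

theorem mult_eq (z : X.Cyc K) (Ω : Type) [Field Ω] [Algebra K Ω] (y : Fin (X.N + 1) → Ω) :
    Var.mult z Ω y = (raw X z).sum fun x n => n • if ∃ (s : Cb K →ₐ[K] Ω) (c : Ω), c ≠ 0 ∧
      ∀ i, y i = c * s (x i) then (Field.finInsepDegree K (rsF x) : ℤ) else 0 := by
  rw [sum_raw]
  refine Finsupp.sum_congr fun x _ => ?_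
  rw [smul_ite, smul_zero]
  rfl

theorem mult_raw {Z : Gen k' X.N} {z : Z.var.Cyc K} {z' : X.Cyc K} (h : raw X z' = raw Z.var z)
    (Ω : Type) [Field Ω] [Algebra K Ω] (y : Fin (X.N + 1) → Ω) :
    Var.mult z' Ω y = Var.mult z Ω y := by
  rw [mult_eq, mult_eq, h]

theorem rpr_congr {Y : Gen k' X.N} {a : BR X.F} {b : BR Y.F}
    (h : ∀ (L : IntermediateField K (Cb K)) (v : Fin (X.N + 1) → L), Y.var.On v →
      Y.var.vl b L v = X.vl a L v) {w : (Fin (X.N + 1) → Cb K) →₀ ℤ}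
    (hw : ∀ x ∈ w.support, Y.var.On x) : rpr Y.var w b = rpr X w a := by
  refine Finsupp.sum_congr fun x hx => congrArg _ ?_
  obtain ⟨v, hv⟩ := exists_up (X := X) (L := rsF x) (x := x)
    fun i => IntermediateField.subset_adjoin _ _ ⟨i, rfl⟩
  have h1 := hw x hx
  rw [hv] at h1
  exact (congrArg _ hv).trans ((ptv_up (X := Y.var) v).trans ((congrArg _
    (h _ v ((on_up (X := Y.var)).1 h1))).trans ((ptv_up v).symm.trans (congrArg _ hv.symm))))

/-- restriction of a class in terms of the pairing -/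
theorem res_rpr {Y : Gen K X.N} (E : EvApi X) (EY : EvApi Y.var) (hY : X.IK K ⊆ Y.var.I)
    {a : BR X.F} (ha : a ∈ X.Bw) : ∃ b ∈ Y.var.Bw, (∀ m : ℕ, m • a = 0 → m • b = 0) ∧
      ∀ w : (Fin (X.N + 1) → Cb K) →₀ ℤ, (∀ x ∈ w.support, Y.var.On x) →
        rpr Y.var w b = rpr X w a := by
  obtain ⟨b, h1, h2, h3⟩ := res_cls E EY hY ha
  exact ⟨b, h1, h2, fun w hw => rpr_congr (fun L v hv => h3 L v hv) hw⟩

end Pool.Agent.ZCy.F
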