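import Pool.Agent.Lib.MP_72c364_ag.ZQ.Bc
import Pool.Agent.Lib.MP_751085_ag.ZF.E.X1
import Pool.Agent.Lib.MP_751085_ag.ZF.EIf

/-! Restriction of classes to a subvariety of a base change. -/

namespace Pool.Agent.ZCy.F

open scoped Classical
open MvPolynomial

variable {k K : Type} [Field k] [Field K] [Algebra k K] {X : Var k} {Y : Gen K X.N} {a : BR X.F}

theorem res_vw (E : EvApi X) (ha : a ∈ X.Bw) [Algebra k Y.F] [IsScalarTower k K Y.F]
    (hg : X.On Y.g) {M : Type} [Field M] [Algebra K M] [Algebra k M] [IsScalarTower k K M]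
    {x : Fin (X.N + 1) → M} (hx : Y.var.On x) (hx' : X.On x) :
    Y.var.Vw (X.vl a Y.F Y.g) x (X.vl a M x) := by
  obtain ⟨i, hi⟩ := Function.ne_iff.1 hx.1
  have hi' : x i ≠ 0 := hi
  have hgi : Y.g i ≠ 0 := hx.zr.g_ne hi'
  have hr : ∀ j, Y.var.Reg x (Y.g j / Y.g i) (x j / x i) := fun j =>
    ⟨1, MvPolynomial.X j, MvPolynomial.X i, isHomogeneous_X _ _, isHomogeneous_X _ _,
      by rwa [aeval_X], by rw [aeval_X, aeval_X]; exact div_mul_cancel₀ _ hgi,
      by rw [aeval_X, aeval_X]; exact div_mul_cancel₀ _ hi'⟩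
  obtain ⟨e, he⟩ := exists_ev hx
  have : IsLocalRing (Y.var.LR x) := .of_isUnit_or_isUnit_one_sub_self fun f => by
    by_cases h : e f = 0
    · exact .inr (ev_unit hx he (by rw [map_sub, map_one, h, sub_zero]; exact one_ne_zero))
    · exact .inl (ev_unit hx he h)
  have hc : ∀ c : k, Y.var.Reg x (algebraMap k Y.F c) (algebraMap k M c) := fun c => by
    rw [IsScalarTower.algebraMap_apply k K Y.F, IsScalarTower.algebraMap_apply k K M]
    exact reg_const (X := Y.var) _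
  let : Algebra k (Y.var.LR x) :=
    ((algebraMap k Y.F).codRestrict (Y.var.LR x) fun c => mem_LR.2 ⟨_, hc c⟩).toAlgebra
  let φ₁ : Y.var.LR x →ₐ[k] Y.F := ⟨(Y.var.LR x).subtype, fun _ => rfl⟩
  let φ₂ : Y.var.LR x →ₐ[k] M := ⟨e, fun c => he _ _ (hc c)⟩
  let y : Fin (X.N + 1) → Y.var.LR x := fun j => ⟨_, mem_LR.2 ⟨_, hr j⟩⟩
  have e1 : φ₁ ∘ y = (Y.g i)⁻¹ • Y.g := funext fun j => div_eq_inv_mul _ _
  have e2 : φ₂ ∘ y = (x i)⁻¹ • x := funext fun j => (he _ _ (hr j)).trans (div_eq_inv_mul _ _)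
  obtain ⟨U, hU⟩ := E.pt a ha (Y.var.LR x) y
    ⟨i, ev_unit hx he (by rw [he _ _ (hr i), div_self hi']; exact one_ne_zero)⟩ fun G hG =>
      Subtype.ext ((x1_map φ₁ y G).symm.trans (by
        rw [e1]
        exact (on_smul (inv_ne_zero hgi) hg).2 G hG))
  refine ⟨U, e, he, (hU _ φ₁).symm.trans ?_, (hU _ φ₂).symm.trans ?_⟩
  · rw [e1]
    exact E.val_smul a ha _ _ _ hg (inv_ne_zero hgi)
  · rw [e2]
    exact E.val_smul a ha _ _ _ hx' (inv_ne_zero hi')

theorem res_on (hY : X.IK K ⊆ Y.var.I) {M : Type} [Field M] [Algebra K M] [Algebra k M]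
    [IsScalarTower k K M] {x : Fin (X.N + 1) → M} (hx : Y.var.On x) : X.On x :=
  ⟨hx.1, fun G hG => (aeval_map_algebraMap K x G).symm.trans (hx.2 _ (hY ⟨G, hG, rfl⟩))⟩

/-- restriction of a class -/
theorem res_cls (E : EvApi X) (EY : EvApi Y.var) (hY : X.IK K ⊆ Y.var.I) (ha : a ∈ X.Bw) :
    ∃ b ∈ Y.var.Bw, (∀ m : ℕ, m • a = 0 → m • b = 0) ∧ ∀ (M : Type) [Field M] [Algebra K M]
      [Algebra k M] [IsScalarTower k K M] (x : Fin (X.N + 1) → M), Y.var.On x →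
        Y.var.vl b M x = X.vl a M x := by
  let : Algebra k Y.F := ((algebraMap K Y.F).comp (algebraMap k K)).toAlgebra
  have : IsScalarTower k K Y.F := IsScalarTower.of_algebraMap_eq fun _ => rfl
  have hg : X.On Y.g := res_on hY Y.var.on_g
  have hb : X.vl a Y.F Y.g ∈ Y.var.Bw := mem_Bw.2 fun M _ _ x hx => by
    let : Algebra k M := ((algebraMap K M).comp (algebraMap k K)).toAlgebra
    have : IsScalarTower k K M := IsScalarTower.of_algebraMap_eq fun _ => rfl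
    obtain ⟨U, e, -, h, -⟩ := res_vw E ha hg hx (res_on hY hx)
    exact mem_loc.2 ⟨U, h⟩
  refine ⟨_, hb, fun m hm => ?_, fun M _ _ _ _ x hx =>
    (EY.vw _ hb M x hx _).1 (res_vw E ha hg hx (res_on hY hx))⟩
  rw [← E.val_nsmul a ha m _ _ hg, hm, ← zero_nsmul a, E.val_nsmul a ha 0 _ _ hg, zero_nsmul]

end Pool.Agent.ZCy.F
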