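import Pool.Agent.Lib.MP_72c364_ag.ZQ.Loc
import Pool.Agent.Lib.MP_72c364_ag.ZQ.Form
import Pool.Agent.Lib.MP_72c364_ag.ZQ.Good
import Pool.Agent.Lib.MP_751085_ag.ZF.C.Main
import Pool.Agent.Lib.MP_751085_ag.ZF.L.Iface
import Pool.Agent.Lib.MP_751085_ag.ZF.U.Nu

/-! A section that carries a given family of local cycles. -/

namespace Pool.Agent.ZCy.F

open Pool.Agent.ZFN Pool.Agent.ZFy.U Uw Module Filter MvPolynomial
open scoped Classical Topology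

attribute [local instance] Place.field Place.alg

/-- the statements of the other blocks -/
structure QHyp : Prop where
  cm : CMainS
  ll : LEFl
  th : THyp
  ev : EV
  wr : WR
  lc : LCA

variable {k : Type} [Field k] {X : Var k}

theorem q_step (H : QHyp) (F₀ : Type) [Field F₀] [Finite F₀] [Algebra (RatFunc F₀) k]
    [FiniteDimensional (RatFunc F₀) k] {l : ℕ} (hl : l.Prime) (hk : (l : k) ≠ 0)
    {j : ∀ v : Place k, BR v.K →+ AddCircle (1 : ℚ)} (hj : ∀ v, Function.Injective (j v)) {n : ℕ}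
    (hn : 4 ≤ n) (hX : X.Nice n) (z : ∀ v : Place k, X.Cyc v.K) :
    ∃ Y : Gen k X.N, Y.var.Nice (n - 1) ∧ X.I ⊆ Y.var.I ∧
      (∀ a ∈ Y.var.Bw, Prim l a → ∃ b, X.Mt Y a b ∧ Prim l b) ∧
      ∀ v, ∃ y : Y.var.Cyc v.K, Rep l y (z v) := by
  have : Infinite k :=
    .of_injective _ ((algebraMap (RatFunc F₀) k).injective.comp (RatFunc.algebraMap_injective F₀))
  have := place_nonempty (k := k) F₀
  have hσ : Fintype.card (Fin (n - 2)) + 2 = n := by rw [Fintype.card_fin]; omega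
  have hσ' : Fintype.card (Option (Fin (n - 2))) + 1 = n := by rw [Fintype.card_option]; omega
  have hn' : 1 ≤ n := by omega
  choose ν hν using nu_thm k F₀
  obtain ⟨d₂, hC⟩ := H.cm k (Place k) (fun v => v.1) (fun v => v.K) place_ne_top place_wapx X n hX
    hn _ hσ _ (jok0 X)
  obtain ⟨d₄, hZ⟩ := zex_thm k X n hX _ hσ' _ (jok0 X)
  obtain ⟨d₅, e1, e2⟩ := bc_deg k d₄
  obtain ⟨c₀, Φ₀, z₀, -⟩ := hZ d₅ e1 e2
  have hG : ∀ c Φ, X.ZCh (J0 k X.N) c Φ → ∀ᶠ v : Place k in cofinite,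
      X.GoodV (σ := Option (Fin (n - 2))) c Φ v.1.toSubring := fun c Φ hc =>
    gdv_thm k X n hX _ hσ' _ _ (fun v : Place k => v.1.toSubring) (place_fs F₀) c Φ hc.sm hc.Φ0
      hc.Ψ0 hc.dp
  obtain ⟨S, hS⟩ : ∃ S : Finset (Place k), ∀ v ∉ S, X.GoodV c₀ Φ₀ v.1.toSubring :=
    ⟨(hG _ _ z₀).toFinset, fun v hv => by_contra fun e => hv ((Set.Finite.mem_toFinset _).2 e)⟩
  choose T hT using fun v : Place k => loc_bad H.ev H.wr H.lc hX hn' (hν v).1 hk (z v)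
  choose d₃ hd using fun v : Place k => form0 hX hσ' (hν v) (T v)
  obtain ⟨d, e3, e4⟩ := bc_deg k (d₂ + S.sup d₃ + c₀.d)
  have hf : ∀ v : Place k, ∃ (fv : Option (Fin (n - 2)) → Fm X.N v.K)
      (W : Option (Fin (n - 2)) → Set ((Fin (X.N + 1) →₀ ℕ) → v.K)), v ∈ S →
      (∀ i, (J0 k X.N).VanK d v.K (fv i) ∧ W i ∈ 𝓝 (cf (fv i))) ∧
      ∀ (C : Gen k X.N) (g : Option (Fin (n - 2)) → Fm X.N k), X.Cut C g →
        (∀ i, (J0 k X.N).Van d (g i)) → (∀ i, cf (map (algebraMap k v.K) (g i)) ∈ W i) →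
          (T v).Hit (ν v) fun x => C.var.On x := fun v => by
    by_cases hv : v ∈ S
    · have := Finset.le_sup (f := d₃) hv
      obtain ⟨fv, W, h⟩ := hd v d (by omega)
      exact ⟨fv, W, fun _ => h⟩
    · exact ⟨0, fun _ => ∅, fun h => absurd h hv⟩
  choose fv W hfv using hf
  obtain ⟨c, c', Φ, L, L', Y, c'', -, -, hL, lin, sm, hY, sec, -, hyp, sm', hC⟩ :=
    hC _ hG (LfL X n l) (H.ll k X n hX hn _ hσ l hk _) c₀ Φ₀ z₀ S hS d (by omega) (by omega) e4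
      fv W fun v hv => (hfv v hv).1
  refine ⟨Y, hY, fun G hG => ⟨hG.1, ((sec _ _).1 Y.var.on_g).1.2 G hG⟩,
    hL c' L L' Y c'' rfl lin sm hY sec hyp sm' l hl dvd_rfl, fun v => ?_⟩
  obtain ⟨C, g, c1, c2, c3, c4, c5, c6⟩ := hC v
  have sX : X.Sub C := fun M _ _ x hx => ((c2 M x).1 hx).1
  obtain ⟨y, h1, h2⟩ : ∃ y : C.var.Cyc v.K, Rep l y (z v) := by
    by_cases hv : v ∈ S
    · exact hT v C c1 sX ((hfv v hv).2 C g c2 c3 (c5 hv))
    · obtain ⟨cb, Φb, -, -, a3, e, a4⟩ := c6 hv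
      exact loc_good H.ev H.wr H.lc hX hn' (hν v).1 (hj v) hl.pos c1 sX (fun X' C' h h' hX' =>
        (good_bc H.th F₀ hσ' a3 c2 a4 h h' hX').imp_right fun h3 => h3 l hk) (z v)
  obtain ⟨y', hy⟩ := exists_mv (X := Y.var) (Z := C) (fun x hx => c4 _ x hx) y
  exact ⟨y', (deg_raw hy).trans h1, fun X' h a ha hp => by rw [hy]; exact h2 X' h a ha hp⟩

end Pool.Agent.ZCy.F
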